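import Pool.Agent.Lib.MP_2e793b_nt.Iface

/-! REPT: number of representations as a sum of two squares, from ROOTS. -/

set_option autoImplicit false

namespace Pool.Agent.Lib.MP_2e793b_nt.H44

open Finset

lemma mem_prs {n : ℕ} {p : ℕ × ℕ} (hp : p ∈ prs n) : p.1 ^ 2 + p.2 ^ 2 = n := by
  unfold prs at hp
  exact (Finset.mem_filter.1 hp).2

lemma mem_prs_of {n : ℕ} {p : ℕ × ℕ} (hp : p.1 ^ 2 + p.2 ^ 2 = n) : p ∈ prs n := by
  unfold prs
  rw [Finset.mem_filter, Finset.mem_product, Finset.mem_range, Finset.mem_range]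
  refine ⟨⟨?_, ?_⟩, hp⟩
  · nlinarith [sq_nonneg p.2, Nat.le_self_pow (two_ne_zero) p.1]
  · nlinarith [sq_nonneg p.1, Nat.le_self_pow (two_ne_zero) p.2]

lemma cop_of {k : ℕ} {p : ℕ × ℕ} (hp : p.1 ^ 2 + p.2 ^ 2 = k) (hc : Nat.Coprime p.1 p.2) :
    Nat.Coprime p.2 k := by
  rw [← hp]
  have h1 : Nat.Coprime p.2 (p.1 ^ 2) := (Nat.Coprime.pow_left 2 hc).symm
  have h2 : p.1 ^ 2 + p.2 ^ 2 = p.1 ^ 2 + p.2 * p.2 := by ring
  rw [h2]
  exact (Nat.coprime_add_mul_left_right p.2 (p.1 ^ 2) p.2).2 h1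

/-- number of primitive pairs -/
lemma prim_card (hR : RootsStmt) (k : ℕ) (hk : 1 ≤ k) :
    ((prs k).filter (fun p => Nat.Coprime p.1 p.2)).card ≤ 4 * k.divisors.card := by
  rcases Nat.lt_or_ge 1 k with h2 | h1
  · have : NeZero k := ⟨by omega⟩
    have h := hR 1 k 1 le_rfl hk one_ne_zero
    refine le_trans ?_ (le_trans h (by simp))
    refine Finset.card_le_card_of_injOn
      (fun p => ((p.1 : ZMod k) * (p.2 : ZMod k)⁻¹).val) ?_ ?_
    · intro p hp
      have hp' := Finset.mem_filter.1 (Finset.mem_coe.1 hp)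
      have hsq := mem_prs hp'.1
      have hcop := cop_of hsq hp'.2
      rw [Finset.mem_coe, Finset.mem_filter, Finset.mem_range]
      refine ⟨ZMod.val_lt _, ?_⟩
      rw [← ZMod.intCast_zmod_eq_zero_iff_dvd]
      push_cast
      rw [ZMod.natCast_zmod_val]
      have hv : (p.2 : ZMod k) * (p.2 : ZMod k)⁻¹ = 1 := ZMod.coe_mul_inv_eq_one p.2 hcop
      have hz : ((p.1 : ZMod k)) ^ 2 + (p.2 : ZMod k) ^ 2 = 0 := by
        have : ((p.1 ^ 2 + p.2 ^ 2 : ℕ) : ZMod k) = 0 := by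
          rw [hsq]
          exact ZMod.natCast_self k
        simpa using this
      have e1 : (1 : ZMod k) = ((p.2 : ZMod k) * (p.2 : ZMod k)⁻¹) ^ 2 := by rw [hv]; ring
      calc (1 : ZMod k) * ((p.1 : ZMod k) * (p.2 : ZMod k)⁻¹) ^ 2 + 1
          = ((p.1 : ZMod k) * (p.2 : ZMod k)⁻¹) ^ 2
              + ((p.2 : ZMod k) * (p.2 : ZMod k)⁻¹) ^ 2 := by rw [← e1]; ring
        _ = ((p.2 : ZMod k)⁻¹) ^ 2 * ((p.1 : ZMod k) ^ 2 + (p.2 : ZMod k) ^ 2) := by ring
        _ = 0 := by rw [hz, mul_zero]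
    · intro p hp q hq hpq
      have hp' := Finset.mem_filter.1 (Finset.mem_coe.1 hp)
      have hq' := Finset.mem_filter.1 (Finset.mem_coe.1 hq)
      have hps := mem_prs hp'.1
      have hqs := mem_prs hq'.1
      have hpc := cop_of hps hp'.2
      have hqc := cop_of hqs hq'.2
      have hpv : (p.2 : ZMod k) * (p.2 : ZMod k)⁻¹ = 1 := ZMod.coe_mul_inv_eq_one p.2 hpc
      have hqv : (q.2 : ZMod k) * (q.2 : ZMod k)⁻¹ = 1 := ZMod.coe_mul_inv_eq_one q.2 hqc
      have heq : (p.1 : ZMod k) * (p.2 : ZMod k)⁻¹ = (q.1 : ZMod k) * (q.2 : ZMod k)⁻¹ :=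
        ZMod.val_injective k hpq
      have hcross : (p.1 : ZMod k) * q.2 = q.1 * p.2 := by
        calc (p.1 : ZMod k) * q.2 = (p.1 : ZMod k) * q.2 * ((p.2 : ZMod k) * (p.2 : ZMod k)⁻¹) := by
              rw [hpv, mul_one]
          _ = ((p.1 : ZMod k) * (p.2 : ZMod k)⁻¹) * q.2 * p.2 := by ring
          _ = ((q.1 : ZMod k) * (q.2 : ZMod k)⁻¹) * q.2 * p.2 := by rw [heq]
          _ = q.1 * p.2 * ((q.2 : ZMod k) * (q.2 : ZMod k)⁻¹) := by ring
          _ = q.1 * p.2 := by rw [hqv, mul_one]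
      have hdvd : (k : ℤ) ∣ (p.1 : ℤ) * q.2 - q.1 * p.2 := by
        rw [← ZMod.intCast_zmod_eq_zero_iff_dvd]
        push_cast
        rw [hcross, sub_self]
      obtain ⟨c, hc⟩ := hdvd
      have hpz : (p.1 : ℤ) ^ 2 + (p.2 : ℤ) ^ 2 = k := by exact_mod_cast hps
      have hqz : (q.1 : ℤ) ^ 2 + (q.2 : ℤ) ^ 2 = k := by exact_mod_cast hqs
      have hid : ((p.1 : ℤ) * q.2 - q.1 * p.2) ^ 2 + ((p.1 : ℤ) * q.1 + p.2 * q.2) ^ 2
          = (k : ℤ) ^ 2 := by
        calc ((p.1 : ℤ) * q.2 - q.1 * p.2) ^ 2 + ((p.1 : ℤ) * q.1 + p.2 * q.2) ^ 2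
            = ((p.1 : ℤ) ^ 2 + (p.2 : ℤ) ^ 2) * ((q.1 : ℤ) ^ 2 + (q.2 : ℤ) ^ 2) := by ring
          _ = (k : ℤ) ^ 2 := by rw [hpz, hqz]; ring
      have hkpos : (0 : ℤ) < k := by exact_mod_cast (by omega : 0 < k)
      -- the scalar product is positive
      have hsc : (0 : ℤ) < (p.1 : ℤ) * q.1 + p.2 * q.2 := by
        by_contra hneg
        have h0 : p.1 * q.1 + p.2 * q.2 = 0 := by
          have : (p.1 : ℤ) * q.1 + p.2 * q.2 ≤ 0 := not_lt.1 hneg
          have : ((p.1 * q.1 + p.2 * q.2 : ℕ) : ℤ) ≤ 0 := by push_cast; exact this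
          omega
        have ha : p.1 * q.1 = 0 := by omega
        have hb : p.2 * q.2 = 0 := by omega
        rcases Nat.mul_eq_zero.1 ha with h | h
        · have : p.2 = 1 := by
            have := hp'.2
            rw [h] at this
            exact (Nat.coprime_zero_left _).1 this
          rw [h, this] at hps
          omega
        · have : q.2 = 1 := by
            have := hq'.2
            rw [h] at this
            exact (Nat.coprime_zero_left _).1 this
          rw [h, this] at hqs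
          omega
      have hc0 : c = 0 := by
        rw [hc] at hid
        have h1 : (k : ℤ) ^ 2 * c ^ 2 < (k : ℤ) ^ 2 * 1 := by nlinarith
        have h2 : c ^ 2 < 1 := lt_of_mul_lt_mul_left h1 (sq_nonneg _)
        nlinarith [sq_nonneg c, sq_nonneg (c - 1), sq_nonneg (c + 1)]
      rw [hc0, mul_zero] at hc
      have hcr : p.1 * q.2 = q.1 * p.2 := by
        have : (p.1 : ℤ) * q.2 = q.1 * p.2 := by linarith
        exact_mod_cast this
      have h1 : p.1 ∣ q.1 := by
        have : p.1 ∣ q.1 * p.2 := ⟨q.2, hcr.symm⟩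
        exact Nat.Coprime.dvd_of_dvd_mul_right hp'.2 this
      have h2' : q.1 ∣ p.1 := by
        have : q.1 ∣ p.1 * q.2 := ⟨p.2, hcr⟩
        exact Nat.Coprime.dvd_of_dvd_mul_right hq'.2 this
      have h3 : p.1 = q.1 := Nat.dvd_antisymm h1 h2'
      have h4 : p.2 ^ 2 = q.2 ^ 2 := by
        rw [h3] at hps
        omega
      have h5 : p.2 = q.2 := by
        exact Nat.pow_left_injective (two_ne_zero) h4
      exact Prod.ext h3 h5
  · have hk1 : k = 1 := le_antisymm h1 hk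
    subst hk1
    refine le_trans (Finset.card_filter_le _ _) ?_
    unfold prs
    decide

theorem rept (hR : RootsStmt) : ReptStmt := by
  intro n hn
  have hmap : ∀ p ∈ prs n, Nat.gcd p.1 p.2 ∈ n.divisors := by
    intro p hp
    have hsq := mem_prs hp
    rw [Nat.mem_divisors]
    refine ⟨?_, by omega⟩
    rw [← hsq]
    exact Nat.dvd_add ((Nat.gcd_dvd_left _ _).trans (Dvd.intro_left (p.1 ^ 1) (by ring)))
      ((Nat.gcd_dvd_right _ _).trans (Dvd.intro_left (p.2 ^ 1) (by ring)))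
  have hfib : ∀ g ∈ n.divisors, ((prs n).filter (fun p => Nat.gcd p.1 p.2 = g)).card
      ≤ 4 * n.divisors.card := by
    intro g hg
    have hgpos : 0 < g := Nat.pos_of_mem_divisors hg
    rcases Finset.eq_empty_or_nonempty ((prs n).filter (fun p => Nat.gcd p.1 p.2 = g)) with he | hne
    · rw [he]; simp
    obtain ⟨p0, hp0⟩ := hne
    have hp0' := Finset.mem_filter.1 hp0
    have hsq0 := mem_prs hp0'.1
    have hgn : g ^ 2 ∣ n := by
      rw [← hsq0]
      refine Nat.dvd_add ?_ ?_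
      · exact pow_dvd_pow_of_dvd (hp0'.2 ▸ Nat.gcd_dvd_left p0.1 p0.2) 2
      · exact pow_dvd_pow_of_dvd (hp0'.2 ▸ Nat.gcd_dvd_right p0.1 p0.2) 2
    obtain ⟨k, hk⟩ := hgn
    have hkpos : 1 ≤ k := by
      rcases Nat.eq_zero_or_pos k with h | h
      · rw [h, mul_zero] at hk; omega
      · exact h
    have h1 : ((prs n).filter (fun p => Nat.gcd p.1 p.2 = g)).card ≤
        ((prs k).filter (fun p => Nat.Coprime p.1 p.2)).card := by
      refine Finset.card_le_card_of_injOn (fun p => (p.1 / g, p.2 / g)) ?_ ?_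
      · intro p hp
        have hp' := Finset.mem_filter.1 (Finset.mem_coe.1 hp)
        have hsq := mem_prs hp'.1
        have hd1 : g ∣ p.1 := hp'.2 ▸ Nat.gcd_dvd_left p.1 p.2
        have hd2 : g ∣ p.2 := hp'.2 ▸ Nat.gcd_dvd_right p.1 p.2
        obtain ⟨a, ha⟩ := hd1
        obtain ⟨b, hb⟩ := hd2
        rw [Finset.mem_coe, Finset.mem_filter]
        refine ⟨mem_prs_of ?_, ?_⟩
        · show (p.1 / g) ^ 2 + (p.2 / g) ^ 2 = k
          rw [ha, hb, Nat.mul_div_cancel_left _ hgpos, Nat.mul_div_cancel_left _ hgpos]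
          have : g ^ 2 * (a ^ 2 + b ^ 2) = g ^ 2 * k := by
            rw [← hk, ← hsq, ha, hb]; ring
          exact Nat.eq_of_mul_eq_mul_left (pow_pos hgpos 2) this
        · show Nat.Coprime (p.1 / g) (p.2 / g)
          have := Nat.coprime_div_gcd_div_gcd (m := p.1) (n := p.2) (by rw [hp'.2]; exact hgpos)
          rw [hp'.2] at this
          exact this
      · intro p hp q hq hpq
        have hp' := Finset.mem_filter.1 (Finset.mem_coe.1 hp)
        have hq' := Finset.mem_filter.1 (Finset.mem_coe.1 hq)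
        have hd1 : g ∣ p.1 := hp'.2 ▸ Nat.gcd_dvd_left p.1 p.2
        have hd2 : g ∣ p.2 := hp'.2 ▸ Nat.gcd_dvd_right p.1 p.2
        have hd3 : g ∣ q.1 := hq'.2 ▸ Nat.gcd_dvd_left q.1 q.2
        have hd4 : g ∣ q.2 := hq'.2 ▸ Nat.gcd_dvd_right q.1 q.2
        have e := Prod.ext_iff.1 hpq
        simp only at e
        refine Prod.ext ?_ ?_
        · rw [← Nat.div_mul_cancel hd1, ← Nat.div_mul_cancel hd3, e.1]
        · rw [← Nat.div_mul_cancel hd2, ← Nat.div_mul_cancel hd4, e.2]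
    have h2 := prim_card hR k hkpos
    have h3 : k.divisors.card ≤ n.divisors.card := by
      apply Finset.card_le_card
      apply Nat.divisors_subset_of_dvd (by omega)
      exact ⟨g ^ 2, by rw [hk]; ring⟩
    omega
  have hsum : rep n ≤ n.divisors.card * (4 * n.divisors.card) := by
    unfold rep
    rw [Finset.card_eq_sum_card_fiberwise (f := fun p : ℕ × ℕ => Nat.gcd p.1 p.2)
      (t := n.divisors) (fun p hp => hmap p (Finset.mem_coe.1 hp))]
    refine le_trans (Finset.sum_le_card_nsmul _ _ (4 * n.divisors.card) hfib) ?_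
    rw [smul_eq_mul]
  nlinarith [Nat.zero_le (n.divisors.card ^ 2)]

end Pool.Agent.Lib.MP_2e793b_nt.H44
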